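import Pool.Agent.Q240.CD.All
import Pool.Agent.Q240.CD.Tr
import Pool.Agent.Q240.CD.RepInv
import Pool.Agent.Y23.F.Gs

set_option autoImplicit false

/-!
# Project CE: statements of the lemma jobs (growth of the eigenvalues of Weil's form, rates)

Every statement is a `def S_xxx : Prop`; prove `theorem xxx : S_xxx` in a file of your own. You may use the other statements as
hypotheses `h1 : S_yyy`.  The class `Y23.G.ZD` holds the zeros of an L-function: `ZD.Zs`, multiplicity `ZD.mul`, strip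
`|Re s - 1/2| ≤ 1`, symmetric under `s ↦ 1 - conj s`, at most `C log (3 + |t|)` of them with `|Im s - t| ≤ 1`.
`Y23.G.Zt` the subtype of the zeros, `Y23.G.mu` the multiplicity, `Y23.TT f w = ∫ f x exp (w x)`, `Y23.N2 f = ∫ |f|²`,
`Y23.G.QQ f = ∑ mu ρ * Re (TT f w * conj (TT f (-conj w)))`, `w = ρ - 1/2`, Weil's form.
`CD.Tg a n f`: `f` is a trigonometric polynomial of degree at most `n` on `[-a, a]`, `0` outside; `CD.vk a k = π k / a`.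
-/

open Polynomial Filter Topology Finset MeasureTheory

namespace Pool.Agent.Q240.CE

open Pool.Agent.Q240.CD

/-! ### Test functions -/

/-- **Rat**: a rational function with simple poles at nodes, times the sine, is the transform of a trigonometric polynomial.
Proof: Lagrange: `p = ∑_{k ∈ J} p(v_k) ∏_{j ≠ k} (X - v_j) / (v_k - v_j)`, and `(z - v_k) TT (ek a k) (I z) = 2 (-1)^k sin (a z)`
(`CD.TT_ek_eq`); `f = ∑ c_k ek a k`, `c_k = p(v_k) / (2 (-1)^k ∏_{j ≠ k} (v_k - v_j))`. `ek a k` is `CD.Tg` (compare `CD.Tg_ek`). -/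
def S_Rat : Prop := ∀ (a : ℝ) (n : ℕ) (J : Finset ℤ) (p : ℂ[X]), 0 < a → (∀ j ∈ J, j.natAbs ≤ n) → p.natDegree < J.card →
  ∃ f : ℝ → ℂ, Tg a n f ∧ ∀ z : ℂ, (∏ j ∈ J, (z - vk a j)) * Y23.TT f (Complex.I * z) = Complex.sin (a * z) * p.eval z

/-- **SinP**: products over consecutive nodes are not much smaller than the sine.
Proof: `u = a x / π`, `K = ⌈η a⌉`, `J = {m+1, ..., m+K}`; let `i ∈ J` be nearest to `u`. `|sin (a x)| = |sin (π (u - i))| ≤ π |u - i|`. For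
the other `j ∈ J`: `|i - j| ≤ 2 |u - j|`. So `∏_{j ≠ i} |u - j| ≥ 2^(-(K-1)) (i-m-1)! (m+K-i)! ≥ (K-1)! / 4^(K-1) ≥ ((K-1)/(4e))^(K-1)`, hence
`∏_J |x - π j / a| = (π/a)^K ∏ |u - j| ≥ |sin (a x)| a⁻¹ (π (K-1) / (4 e a))^(K-1)`. For `a ≥ 4/η`: `K - 1 ≥ η a / 2` and `K - 1 ≤ η a`, so the
last factor is at least `a⁻¹ (π η / (8 e))^(η a) = a⁻¹ exp (- a η log (8 e / (π η)))`, and `η log (8 e / (π η)) → 0` as `η → 0`. -/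
def S_SinP : Prop := ∀ ε : ℝ, 0 < ε → ∃ η0 : ℝ, 0 < η0 ∧ ∀ η : ℝ, 0 < η → η ≤ η0 → ∃ A : ℝ, ∀ a : ℝ, A ≤ a → ∀ (m : ℤ) (x : ℝ),
  |Real.sin (a * x)| ≤ Real.exp (ε * a) * ∏ j ∈ Finset.Icc (m + 1) (m + ⌈η * a⌉₊), |x - Real.pi * j / a|

/-- **SumG**: summability over the zeros and finiteness of discs, from `ZD.cnt` (sum over the integers as in `Y23.G.zsum`, `summable_j`;
compare the proof of `CD.S_SumZ`, file `Pool/Agent/Q24/CD/SumZ.lean`). -/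
def S_SumG : Prop := ∀ [D : Y23.G.ZD], (Summable fun ρ : Y23.G.Zt => (Y23.G.mu (ρ : ℂ) : ℝ) / (1 + ‖(ρ : ℂ) - 1 / 2‖) ^ (7 / 4 : ℝ)) ∧
  (Summable fun ρ : Y23.G.Zt => (Y23.G.mu (ρ : ℂ) : ℝ) / (1 + ‖(ρ : ℂ) - 1 / 2‖) ^ 2) ∧
  ∀ T : ℝ, {s : ℂ | s ∈ D.Zs ∧ ‖s - 1 / 2‖ ≤ T}.Finite

/-- **T1**: a test function for one zero `ρ₀` to the right of the line. Uses `S_Rat`, `S_SinP`, `S_SumG`.
Proof. Work with `z = -i (s - 1/2)`, `F z = TT f (I z)`. `z₀ = x₀ - i y₀`, `x₀ = Im ρ₀`, `y₀ = Re ρ₀ - 1/2 ∈ (0, 1]`. We may assume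
`ε ≤ 1`. Choose `η ≤ η0(ε/8) ≤ 1` (`S_SinP`) small, `K = ⌈η a⌉`, `m = ⌊a x₀ / π⌋`, `J = {m+1..m+K}`: for large `a` all nodes satisfy
`|x_j - x₀| ≤ 4 η ≤ 1`, and `J ⊂ [-n, n]`, as `n / a → ∞`. `R0 = max (2|x₀| + 8) (4 exp (4/η))`. For `R ≥ R0` let `B` be the monic polynomial whose
simple roots are the points `z = -i (s - 1/2)` for the zeros `s ≠ ρ₀, 1 - conj ρ₀` with `‖s - 1/2‖ ≤ R` (finitely many, closed under conjugation of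
`z` as `s ↦ 1 - conj s` is `z ↦ conj z`; so `B (conj z) = conj (B z)`, `B z₀ ≠ 0`). `p = B (α + β X)`, `(∏_J (z - x_j)) F z = sin (a z) p z` (`S_Rat`, `K > deg p`
for large `a`). With `A = sin (a z₀) B(z₀) / ∏_J (z₀ - x_j) ≠ 0` we have `F z₀ = A (α + β z₀)`, `F (conj z₀) = conj A * (α + β conj z₀)`; choose `α, β` such that
`α + β z₀ = - conj A / A`, `α + β conj z₀ = 1`; then `F z₀ * conj (F (conj z₀)) = -|A|²`, and `|β| ≤ 1/y₀`, `|α| ≤ 1 + |z₀|/y₀`, uniformly in `a`.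
So `|p w| ≤ C (1+|w|)^d`, `d = deg B + 1`, with `C` independent of `a`.
`|A| ≥ sinh (a y₀) |B z₀| / (1 + 16 η²)^(K/2) ≥ c exp ((y₀ - ε/8) a)` if `η` is small.
Norm: `N2 f = (1/2π) ∫ |F x|²` (`Y23.plancherel`); `|F x| ≤ exp (ε a / 8) |p x|` (`S_SinP`), and for `|x - x₀| ≥ 4`: `|x - x_j| ≥ |x - x₀| / 2`, so
`|F x| ≤ |p x| (2 / |x - x₀|)^K ≤ C' / (1 + x²)`. So `N2 f ≤ C'' exp (ε a / 4)`.
Tail: for `‖w‖ ≥ R`, `|Im w| ≤ 1`: `|w - x_j| ≥ ‖w‖ / 4`, `|F w| ≤ exp a * |p w| (4/‖w‖)^K`, and the sum of `mu |F w|²` is at most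
`C exp (2a) (4/R)^(2 K - 2 d - 2) ∑ mu / ‖w‖² ≤ C(R) exp (-6 a)`, as `R ≥ 4 exp (4/η)`.
Finally divide `f` by `exp (ε a / 4)`. -/
def S_T1 : Prop := ∀ [D : Y23.G.ZD] (n : ℝ → ℕ), Tendsto (fun a : ℝ => (n a : ℝ) / a) atTop atTop →
  ∀ ρ0 : ℂ, ρ0 ∈ D.Zs → 1 / 2 < ρ0.re → ∀ ε : ℝ, 0 < ε → ∃ R0 : ℝ, ∀ R : ℝ, R0 ≤ R → ∀ᶠ a : ℝ in atTop, ∃ f : ℝ → ℂ, Tg a (n a) f ∧
    (∀ s ∈ D.Zs, ‖s - 1 / 2‖ ≤ R → s ≠ ρ0 → s ≠ 1 - (starRingEnd ℂ) ρ0 → Y23.TT f (s - 1 / 2) = 0) ∧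
    (Y23.G.GG f f (ρ0 - 1 / 2)).re ≤ -Real.exp ((2 * (ρ0.re - 1 / 2) - ε) * a) ∧
    Y23.N2 f ≤ Real.exp (-(ε / 8 * a)) ∧
    (Summable fun ρ : Y23.G.Zt => (Y23.G.mu (ρ : ℂ) : ℝ) * ‖Y23.TT f ((ρ : ℂ) - 1 / 2)‖ ^ 2) ∧
    ∑' ρ : Y23.G.Zt, (if R < ‖(ρ : ℂ) - 1 / 2‖ then (Y23.G.mu (ρ : ℂ) : ℝ) * ‖Y23.TT f ((ρ : ℂ) - 1 / 2)‖ ^ 2 else 0) ≤ Real.exp (-a)

/-- **Test**: a space of test functions of dimension `k`. Uses `S_T1`.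
Proof: choose `ε` with `2 σ < 2 (Re ρ_i - 1/2) - ε` for all `i`, `R` larger than all `R0 i` and all `‖ρ_i - 1/2‖`, and `f_i` from `S_T1`. Let `F = ∑ t_i f_i`.
`GG F F w` at `w = ρ_i - 1/2` is `|t_i|² GG f_i f_i w`, as `TT f_j` vanishes at `ρ_i - 1/2` and at `(1 - conj ρ_i) - 1/2 = - conj w` for `j ≠ i`; at the zeros
`1 - conj ρ_i` it is the conjugate. All other zeros with `‖s - 1/2‖ ≤ R` contribute `0`, and the rest at most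
`∑_{‖w‖>R} mu ‖TT F w‖² ≤ k ∑ |t_i|² exp (-a)` (`|Re (x conj y)| ≤ (|x|²+|y|²)/2` and the symmetry `Y23.G.rfZ`). So
`QQ F ≤ ∑ |t_i|² (k exp (-a) - 2 exp ((2 (Re ρ_i - 1/2) - ε) a)) ≤ - exp (2 σ a) ∑ |t_i|²` for large `a` if `σ ≥ 0` (which we assume). Norm: Cauchy-Schwarz, `k exp (-ε a / 8) ≤ 1`. -/
def S_Test : Prop := ∀ [D : Y23.G.ZD] (n : ℝ → ℕ), Tendsto (fun a : ℝ => (n a : ℝ) / a) atTop atTop →
  ∀ (k : ℕ) (ρ : Fin k → ℂ), Function.Injective ρ → (∀ i, ρ i ∈ D.Zs) → ∀ σ : ℝ, 0 ≤ σ → (∀ i, σ < (ρ i).re - 1 / 2) →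
    ∀ᶠ a : ℝ in atTop, ∃ f : Fin k → ℝ → ℂ, (∀ i, Tg a (n a) (f i)) ∧ ∀ t : Fin k → ℂ,
      Y23.G.QQ (fun x => ∑ i, t i * f i x) ≤ -Real.exp (2 * σ * a) * ∑ i, ‖t i‖ ^ 2 ∧
      Y23.N2 (fun x => ∑ i, t i * f i x) ≤ ∑ i, ‖t i‖ ^ 2

/-! ### The bound from below -/

/-- **Loc**: the sum over the zeros near the line.
Proof. (i) zeros with `|Im s| ≤ 8 n²`: duality: for finitely many `w_r` and weights `m_r ≥ 0`: `∑ m_r |TT f w_r|² ≤ N2 f * max_r ∑_s m_s |K(w_r, w_s)|`,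
`K(w, w') = ∫_{-a}^{a} exp ((w + conj w') x) dx` (Bombieri's lemma), `|K| ≤ 2 exp (2 y a) min (a, 1/|Im (w - w')|)`, so the sum over `s` is at most
`C exp (2 y a) (a log (3+n) + log² (3 + n))` by `ZD.cnt`. (Or: mean values over discs of radius `1/a` and Plancherel on the lines `Re w = σ`.)
(ii) the other zeros: `f = ∑_{|k| ≤ n} c_k exp (i π k x / a)`, `∑ |c_k|² = N2 f / (2a)`, `|TT f w| ≤ ∑ |c_k| 2 exp (y a) / (|Im w| - π n / a) ≤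
4 exp (y a) √(2n+1) √(N2 f / 2a) / |Im w|`; sum over the zeros with `|Im w| > 8 n²` is at most `C exp (2ya) n N2 f log(n+2)/n²`. -/
def S_Loc : Prop := ∀ [D : Y23.G.ZD], ∃ C : ℝ, 0 < C ∧ ∀ (a y : ℝ) (n : ℕ) (f : ℝ → ℂ), 1 ≤ a → 0 ≤ y → y ≤ 1 → a ≤ n → Tg a n f →
  (Summable fun ρ : Y23.G.Zt => (Y23.G.mu (ρ : ℂ) : ℝ) * ‖Y23.TT f ((ρ : ℂ) - 1 / 2)‖ ^ 2) ∧
  ∑' ρ : Y23.G.Zt, (if |(ρ : ℂ).re - 1 / 2| ≤ y then (Y23.G.mu (ρ : ℂ) : ℝ) * ‖Y23.TT f ((ρ : ℂ) - 1 / 2)‖ ^ 2 else 0) ≤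
    C * a ^ 3 * Real.log (n + 2) ^ 2 * Real.exp (2 * y * a) * Y23.N2 f

/-- **UpQ**: the form is bounded from below if the transform vanishes at the zeros to the right of `1/2 + y`. Uses `S_Loc`.
Proof: in `QQ f = ∑ mu Re (TT f w conj (TT f (-conj w)))` the terms with `|Re w| > y` vanish (one of `w`, `-conj w` has real part `> y`);
the others are at least `- mu (|TT f w|² + |TT f (-conj w)|²) / 2`; symmetry (`Y23.G.rfZ`). -/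
def S_UpQ : Prop := ∀ [D : Y23.G.ZD], ∃ C : ℝ, 0 < C ∧ ∀ (a y : ℝ) (n : ℕ) (f : ℝ → ℂ), 1 ≤ a → 0 ≤ y → y ≤ 1 → a ≤ n → Tg a n f →
  (∀ s ∈ D.Zs, y < s.re - 1 / 2 → Y23.TT f (s - 1 / 2) = 0) →
    -(C * a ^ 3 * Real.log (n + 2) ^ 2 * Real.exp (2 * y * a) * Y23.N2 f) ≤ Y23.G.QQ f

/-! ### Rates under the Riemann hypothesis -/

/-- **GapC**: polynomials which vanish at `0` have a much larger quotient. Uses `S_Kb`, `S_Del`, `S_Gap`, `S_Oeb` (all proved: `CD.a_kb`, ...).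
Proof (compare the proofs of `CD.S_Odd`, `CD.S_Even`, file `Pool/Agent/Q61/CD/Even.lean`, which are the case `C = 1`): split `P = q(x²) + x r(x²)`,
`q = X h` (as `q(0) = P(0) = 0`), `deg h + 1 ≤ N`, `deg r + 1 ≤ N`; `Lp P = Lam (q q) + Lam (X r r)`, `Op P = Oe q + Oo r` (compare `Pool/Agent/Q16/CD/Uni.lean`).
Let `δ = Lam (q0 q0) > 0` and suppose `Lp P ≤ C δ Op P`, normalised `Op P = 1`. Then `Lam (X r r) ≤ C δ`, `Lam (X h h) ≤ Lam (q q) / g 0 ≤ C δ / g 0`,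
so `r(t)², h(t)² ≤ ε` for `0 ≤ t ≤ T` (`S_Gap`); and for all `t ≥ 0` by `S_Kb`: `r(t)² δ ≤ Cg (1+t)² mj g (N-2) t ^ 2 Lam (r r)`, `Lam (r r) ≤ Lam (X r r)/g 0`, and
`q(t)² δ ≤ Cg (1+t)² mj g (N-1) t ^ 2 Lam (q q)`. So `(q(x²)² + x² r(x²)²) u ≤ C' MJ u`, the integral over `|x| > X` is at most `1/4` for
suitable `X` (`Wts.tail`), that over `|x| ≤ X` at most `2 X (X⁴ + X²) ε B ≤ 1/4`. Contradiction. -/
def S_GapC : Prop := ∀ {ι : Type} (l : Filter ι) (g μ : ℕ → ℝ) (N : ι → ℕ) (M : ι → ℕ → ℝ) (u : ι → ℝ → ℝ),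
  Fam l g μ N M → Wts l g N u → ∀ q0 : ι → ℝ[X], (∀ᶠ i in l, Ex g (M i) (N i) 0 (q0 i)) →
    ∀ C : ℝ, ∀ᶠ i in l, ∀ P : ℝ[X], P ≠ 0 → P.natDegree ≤ 2 * N i → P.eval 0 = 0 →
      C * Lam g (M i) (q0 i * q0 i) * Op (u i) P < Lp g (M i) P

/-- **NB**: the norm of a ground state is bounded by its value at `0`. Uses `S_GapC`, `S_Oeb`.
Proof: write `q = q(0) q0 + X h`, `P = (X h)(x²)`, `P(0) = 0`. Orthogonality: `Lam (q q) = q(0)² δ + Lam (X h X h)`, so by `S_GapC` (constant `K`)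
`K δ Oe (X h) ≤ Lam (X h X h) ≤ Lam (q q) ≤ δ Oe q / Oe q0 ≤ δ Oe q / c`. So `Oe (X h) ≤ Oe q / (c K)`, and
`√(Oe q) ≤ |q(0)| √(Oe q0) + √(Oe (X h))`, hence `Oe q ≤ C q(0)²` (take `K = 4/c`; `Oe q0 ≤ C`). -/
def S_NB : Prop := ∀ {ι : Type} (l : Filter ι) (g μ : ℕ → ℝ) (N : ι → ℕ) (M : ι → ℕ → ℝ) (u : ι → ℝ → ℝ),
  Fam l g μ N M → Wts l g N u → ∀ q0 : ι → ℝ[X], (∀ᶠ i in l, Ex g (M i) (N i) 0 (q0 i)) →
    ∃ C : ℝ, 0 < C ∧ ∀ᶠ i in l, ∀ q : ℝ[X], q.natDegree ≤ N i →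
      Lam g (M i) (q * q) * Oe (u i) (q0 i) ≤ Lam g (M i) (q0 i * q0 i) * Oe (u i) q → Oe (u i) q ≤ C * q.eval 0 ^ 2

/-- **Rate0**: the smallest value of the form is extremely small. Uses `CD.S_SpP` (`CD.a_spP`).
Proof: write `M j = 2 m_j S(γ_j)²`, `S = Sr a (n a)`, `x_k = xk a k = π k / a`. Let `Q = ∏_{j<n} (1 - X / γ_j²)`, `Q(0) = 1`, degree `n = n a`, so
`Lam (q0 q0) ≤ Lam (Q Q)` (`Q = q0 + s`, `s(0) = 0`, `Lam (Q Q) = Lam (q0 q0) + Lam (s s)`) `= ∑_{j ≥ n} M j Q(γ_j²)²`. By `S_SpP` at the real point `γ = γ_i`, `i ≥ n`: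
`sin (a γ) = a γ ∏_{k=1}^n (1 - γ²/x_k²) S(γ)`, so `|Q(γ²) S(γ)| = |sin (a γ)| / (a γ) * ∏_{j<n} |1 - γ²/γ_j²| / |1 - γ²/x_{j+1}²|`. Here
`x_{j+1} ≤ (π/c0) (log (n+3) / a) γ_j ≤ γ_j < γ` for large `a`, and `(A - 1)/(B - 1) ≤ A / B` for `1 < A ≤ B`, so every factor is at most `(x_{j+1}/γ_j)² ≤ (C log (n+3) / a)²`.
So `Lam (Q Q) ≤ ∑ 2 m_i / (a γ_i)² * (C log (n+3) / a)^(4n)`, and `4 n (log a - log (C log (n+3))) ≥ c a² log a` for large `a` if `c < 4 κ`. -/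
def S_Rate0 : Prop := ∀ (γ m : ℕ → ℝ), StrictMono γ → 0 < γ 0 → (∀ j, 1 ≤ m j) → (Summable fun j => m j / (γ j ^ 2) ^ (7 / 8 : ℝ)) →
  (∃ c0 : ℝ, 0 < c0 ∧ ∀ j : ℕ, c0 * (j + 1) / Real.log (j + 3) ≤ γ j) →
  ∀ (n : ℝ → ℕ) (κ c : ℝ), 0 < κ → c < 4 * κ → Tendsto (fun a : ℝ => (n a : ℝ) / a ^ 2) atTop (𝓝 κ) →
    ∀ᶠ a : ℝ in atTop, ∀ q0 : ℝ[X], PM (fun j => γ j ^ 2) (fun j => 2 * m j * Sr a (n a) (Real.sqrt (γ j ^ 2)) ^ 2) (n a) →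
      Ex (fun j => γ j ^ 2) (fun j => 2 * m j * Sr a (n a) (Real.sqrt (γ j ^ 2)) ^ 2) (n a) 0 q0 →
      Lam (fun j => γ j ^ 2) (fun j => 2 * m j * Sr a (n a) (Real.sqrt (γ j ^ 2)) ^ 2) (q0 * q0) ≤ Real.exp (-(c * a ^ 2 * Real.log a))

/-- **ZC**: a zero near a point where the function is small (real functions, locally uniform limit with a simple zero).
Proof: locally uniform convergence of holomorphic functions implies that of the derivatives (Mathlib: `TendstoLocallyUniformlyOn.deriv`). Let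
`φ x = (F i x).re`, a real differentiable function with derivative `(deriv (F i) x).re`; near `x0` it is close to `deriv G x0`, which is real (limit of reals) and not `0`,
say `|φ'| ≥ c = |deriv G x0| / 2` with constant sign on `[x0 - r, x0 + r]`, eventually. `|φ x0| → 0`, so `|φ x0| ≤ c r / 2` eventually, and `φ` has
a zero at distance at most `|φ x0| / c` (intermediate value theorem, mean value inequality). -/
def S_ZC : Prop := ∀ {ι : Type} (l : Filter ι) (F : ι → ℂ → ℂ) (G : ℂ → ℂ), l.NeBot → TendstoLocallyUniformly F G l →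
  (∀ᶠ i in l, Differentiable ℂ (F i) ∧ ∀ x : ℝ, (F i (x : ℂ)).im = 0) → ∀ x0 : ℝ, G x0 = 0 → deriv G x0 ≠ 0 →
    ∃ C : ℝ, 0 < C ∧ ∀ᶠ i in l, ∃ t : ℝ, F i (t : ℂ) = 0 ∧ |t - x0| ≤ C * ‖F i (x0 : ℂ)‖

/-- **CntG**: the ordinates of zeros on the line grow. From `ZD.cnt`: the number of zeros with `0 < Im s ≤ T` is at most `C (T+1) log (3 + T)`, and
`γ 0, ..., γ j` are `j + 1` of them with `T = γ j`: `j + 1 ≤ C (γ_j + 1) log (3 + γ_j)`; if `γ_j ≤ j + 1` this gives the bound, and if `γ_j > j + 1` it is trivial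
(with a small `c0`). -/
def S_CntG : Prop := ∀ [D : Y23.G.ZD] (γ : ℕ → ℝ), StrictMono γ → 0 < γ 0 → (∀ j, (1 / 2 + Complex.I * (γ j : ℂ)) ∈ D.Zs) →
  ∃ c0 : ℝ, 0 < c0 ∧ ∀ j : ℕ, c0 * (j + 1) / Real.log (j + 3) ≤ γ j

end Pool.Agent.Q240.CE
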