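import Pool.Agent.Q240.CE.Stm

set_option autoImplicit false

/-! # Project CE: the exponential growth of the eigenvalues of Weil's form -/

open Polynomial Filter Topology Finset MeasureTheory

namespace Pool.Agent.Q240.CE

open Pool.Agent.Q240.CD

/-- the numbers `x` such that `W ≤ x N` on some subspace of dimension `k` -/
def evs (W N : (ℝ → ℂ) → ℝ) (T : (ℝ → ℂ) → Prop) (k : ℕ) : Set ℝ :=
  {x : ℝ | ∃ V : Submodule ℂ (ℝ → ℂ), (∀ f ∈ V, T f) ∧ Module.finrank ℂ V = k ∧ ∀ f ∈ V, W f ≤ x * N f}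

lemma Tg_add {a : ℝ} {n : ℕ} {f g : ℝ → ℂ} (hf : Tg a n f) (hg : Tg a n g) : Tg a n (f + g) := by
  obtain ⟨c, hc⟩ := hf
  obtain ⟨d, hd⟩ := hg
  refine ⟨fun k => c k + d k, fun x => ?_⟩
  rw [Pi.add_apply, hc, hd]
  by_cases hx : |x| ≤ a
  · rw [if_pos hx, if_pos hx, if_pos hx, ← Finset.sum_add_distrib]
    exact Finset.sum_congr rfl fun k _ => by ring
  · rw [if_neg hx, if_neg hx, if_neg hx, add_zero]

lemma Tg_zero {a : ℝ} {n : ℕ} : Tg a n (fun _ => 0) := by
  refine ⟨fun _ => 0, fun x => ?_⟩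
  simp

lemma Tg_sum {a : ℝ} {n : ℕ} {β : Type} (s : Finset β) (F : β → ℝ → ℂ) (hF : ∀ b ∈ s, Tg a n (F b)) :
    Tg a n (fun x => ∑ b ∈ s, F b x) := by
  classical
  induction s using Finset.induction_on with
  | empty => simpa using Tg_zero
  | insert b s hb ih =>
    have h1 := Tg_add (hF b (Finset.mem_insert_self b s)) (ih fun c hc => hF c (Finset.mem_insert_of_mem hc))
    have e : (fun x => ∑ b ∈ insert b s, F b x) = F b + fun x => ∑ b ∈ s, F b x := by
      funext x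
      rw [Finset.sum_insert hb, Pi.add_apply]
    rw [e]
    exact h1

/-- a nonzero trigonometric polynomial has positive norm -/
lemma Tg_pos {a : ℝ} (ha : 0 < a) {n : ℕ} {f : ℝ → ℂ} (hf : Tg a n f) (h0 : f ≠ 0) : 0 < Y23.N2 f := by
  refine lt_of_le_of_ne (Y23.N2_nonneg f) fun h => h0 ?_
  have h1 : ∀ w, Y23.TT f w = 0 := fun w => Y23.TT_zero_of_N2 ha (Tg_Hn ha hf).1 h.symm w
  have h2 : ∀ w, Y23.TT (fun _ : ℝ => (0 : ℂ)) w = 0 := by
    intro w
    unfold Y23.TT
    simp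
  exact Tg_ext ha hf (Tg_zero (n := n)) fun w => (h1 w).trans (h2 w).symm

/-- fewer than `k` linear conditions on a space of dimension `k` -/
lemma exists_kernel {a : ℝ} (ha : 0 < a) {n k : ℕ} (V : Submodule ℂ (ℝ → ℂ)) (hV : ∀ f ∈ V, Tg a n f) (hk : Module.finrank ℂ V = k)
    (E : Finset ℂ) (hE : E.card < k) : ∃ f ∈ V, f ≠ 0 ∧ ∀ w ∈ E, Y23.TT f w = 0 := by
  classical
  have hfd : FiniteDimensional ℂ V := Module.finite_of_finrank_pos (by omega)
  let L : V →ₗ[ℂ] (E → ℂ) :=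
    { toFun := fun f w => Y23.TT (f : ℝ → ℂ) w
      map_add' := by
        intro f g
        funext w
        have h1 := Y23.TT_add (Tg_Hn ha (hV _ f.2)).1 (Tg_Hn ha (hV _ g.2)).1 (w : ℂ)
        exact h1
      map_smul' := by
        intro c f
        funext w
        have h1 := Y23.TT_smul (f : ℝ → ℂ) c (w : ℂ)
        exact h1 }
  have hlt : Module.finrank ℂ (E → ℂ) < Module.finrank ℂ V := by
    rw [Module.finrank_fintype_fun_eq_card, Fintype.card_coe, hk]
    exact hE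
  have hker := LinearMap.ker_ne_bot_of_finrank_lt (f := L) hlt
  obtain ⟨v, hv, hv0⟩ := (Submodule.ne_bot_iff _).1 hker
  refine ⟨v, v.2, fun h => hv0 (Subtype.ext h), fun w hw => ?_⟩
  have h1 : L v = 0 := hv
  exact congrFun h1 ⟨w, hw⟩

section

variable [D : Y23.G.ZD]

/-- the bound for the eigenvalues from below -/
lemma evs_low (hUp : S_UpQ) : ∃ C : ℝ, 0 < C ∧ ∀ (a y : ℝ) (n k : ℕ), 1 ≤ a → 0 ≤ y → y ≤ 1 → a ≤ n →
    {s : ℂ | s ∈ D.Zs ∧ y < s.re - 1 / 2}.encard < k → ∀ x ∈ evs Y23.G.QQ Y23.N2 (Tg a n) k,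
      -(C * a ^ 3 * Real.log (n + 2) ^ 2 * Real.exp (2 * y * a)) ≤ x := by
  obtain ⟨C, hC, h⟩ := hUp (D := D)
  refine ⟨C, hC, fun a y n k ha hy hy1 hn hE x hx => ?_⟩
  obtain ⟨V, hV, hk, hx⟩ := hx
  have ha0 : 0 < a := by linarith
  have hfin : {s : ℂ | s ∈ D.Zs ∧ y < s.re - 1 / 2}.Finite := Set.finite_of_encard_le_coe hE.le
  have hcard : (hfin.toFinset.image fun s => s - 1 / 2).card < k := by
    refine lt_of_le_of_lt Finset.card_image_le ?_
    have h1 : (hfin.toFinset.card : ℕ∞) < k := by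
      rw [← Set.encard_coe_eq_coe_finsetCard, hfin.coe_toFinset]
      exact hE
    exact_mod_cast h1
  obtain ⟨f, hfV, hf0, hf⟩ := exists_kernel ha0 V hV hk _ hcard
  have h1 := h a y n f ha hy hy1 hn (hV f hfV) fun s hs hys => hf _ (Finset.mem_image.2 ⟨s, hfin.mem_toFinset.2 ⟨hs, hys⟩, rfl⟩)
  have h2 := hx f hfV
  have h3 := Tg_pos ha0 (hV f hfV) hf0
  have h4 : -(C * a ^ 3 * Real.log (n + 2) ^ 2 * Real.exp (2 * y * a)) * Y23.N2 f ≤ x * Y23.N2 f := by linarith
  exact le_of_mul_le_mul_right h4 h3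

/-- no negative eigenvalue beyond the zeros to the right -/
lemma evs_nonneg {a : ℝ} (ha : 0 < a) {n k : ℕ} (hE : {s : ℂ | s ∈ D.Zs ∧ 1 / 2 < s.re}.encard < k) :
    ∀ x ∈ evs Y23.G.QQ Y23.N2 (Tg a n) k, 0 ≤ x := by
  rintro x ⟨V, hV, hk, hx⟩
  have hfin : {s : ℂ | s ∈ D.Zs ∧ 1 / 2 < s.re}.Finite := Set.finite_of_encard_le_coe hE.le
  have hcard : (hfin.toFinset.image fun s => s - 1 / 2).card < k := by
    refine lt_of_le_of_lt Finset.card_image_le ?_
    have h1 : (hfin.toFinset.card : ℕ∞) < k := by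
      rw [← Set.encard_coe_eq_coe_finsetCard, hfin.coe_toFinset]
      exact hE
    exact_mod_cast h1
  obtain ⟨f, hfV, hf0, hf⟩ := exists_kernel ha V hV hk _ hcard
  have hz : ∀ s ∈ D.Zs, 1 / 2 < s.re → Y23.TT f (s - 1 / 2) = 0 := fun s hs hys =>
    hf _ (Finset.mem_image.2 ⟨s, hfin.mem_toFinset.2 ⟨hs, hys⟩, rfl⟩)
  have h1 : 0 ≤ Y23.G.QQ f := by
    unfold Y23.G.QQ
    refine tsum_nonneg fun ρ => mul_nonneg (Nat.cast_nonneg _) ?_
    unfold Y23.G.GG
    rcases lt_trichotomy (ρ : ℂ).re (1 / 2) with h | h | h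
    · have e : -(starRingEnd ℂ) ((ρ : ℂ) - 1 / 2) = (1 - (starRingEnd ℂ) (ρ : ℂ)) - 1 / 2 := by
        rw [map_sub, map_div₀, map_one, map_ofNat]
        ring
      have h2 := hz _ (D.refl _ ρ.2) (by simp; linarith)
      rw [e, h2]
      simp
    · have e : -(starRingEnd ℂ) ((ρ : ℂ) - 1 / 2) = (ρ : ℂ) - 1 / 2 := by
        apply Complex.ext
        · simp; linarith
        · simp
      rw [e, Complex.mul_conj, Complex.ofReal_re]
      exact Complex.normSq_nonneg _
    · rw [hz _ ρ.2 h]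
      simp
  have h2 := hx f hfV
  have h3 := Tg_pos ha (hV f hfV) hf0
  by_contra hcon
  push Not at hcon
  have := mul_neg_of_neg_of_pos hcon h3
  linarith

/-- the bound for the eigenvalues from above -/
lemma evs_test (hT : S_Test) (n : ℝ → ℕ) (hn : Tendsto (fun a : ℝ => (n a : ℝ) / a) atTop atTop) (k : ℕ) (σ : ℝ) (hσ : 0 ≤ σ)
    (hE : (k : ℕ∞) ≤ {s : ℂ | s ∈ D.Zs ∧ σ < s.re - 1 / 2}.encard) :
    ∀ᶠ a : ℝ in atTop, -Real.exp (2 * σ * a) ∈ evs Y23.G.QQ Y23.N2 (Tg a (n a)) k := by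
  classical
  obtain ⟨S, hS, hSk⟩ := Set.exists_subset_encard_eq hE
  have hfin : S.Finite := Set.finite_of_encard_eq_coe hSk
  have hcard : hfin.toFinset.card = k := by
    have h1 : (hfin.toFinset.card : ℕ∞) = k := by
      rw [← Set.encard_coe_eq_coe_finsetCard, hfin.coe_toFinset]
      exact hSk
    exact_mod_cast h1
  let e : Fin k ≃ hfin.toFinset := (Fintype.equivFinOfCardEq (by rw [Fintype.card_coe]; exact hcard)).symm
  have he : ∀ i, ((e i : ℂ)) ∈ D.Zs ∧ σ < (e i : ℂ).re - 1 / 2 := fun i => hS (hfin.mem_toFinset.1 (e i).2)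
  have h1 := hT (D := D) n hn k (fun i => (e i : ℂ)) (fun i j hij => e.injective (Subtype.ext hij)) (fun i => (he i).1) σ hσ
    fun i => (he i).2
  filter_upwards [h1, eventually_gt_atTop 0] with a ha ha0
  obtain ⟨f, hf, h2⟩ := ha
  let L : (Fin k → ℂ) →ₗ[ℂ] (ℝ → ℂ) :=
    { toFun := fun t x => ∑ i, t i * f i x
      map_add' := by
        intro s t
        funext x
        simp only [Pi.add_apply, add_mul, Finset.sum_add_distrib]
      map_smul' := by
        intro c t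
        funext x
        simp only [Pi.smul_apply, smul_eq_mul, RingHom.id_apply, Finset.mul_sum, mul_assoc] }
  have hL : ∀ t, L t = fun x => ∑ i, t i * f i x := fun t => rfl
  have hinj : Function.Injective L := by
    rw [injective_iff_map_eq_zero]
    intro t ht
    have h3 := (h2 t).1
    rw [← hL, ht] at h3
    have h4 : Y23.G.QQ (0 : ℝ → ℂ) = 0 := by
      unfold Y23.G.QQ Y23.G.GG Y23.TT
      simp
    rw [h4] at h3
    have h5 : ∑ i, ‖t i‖ ^ 2 ≤ 0 := by
      by_contra hcon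
      push Not at hcon
      have := mul_pos (Real.exp_pos (2 * σ * a)) hcon
      linarith
    funext i
    have h6 : ‖t i‖ ^ 2 ≤ 0 := (Finset.single_le_sum (fun j _ => sq_nonneg ‖t j‖) (Finset.mem_univ i)).trans h5
    have h7 : ‖t i‖ ^ 2 = 0 := le_antisymm h6 (sq_nonneg _)
    simpa using h7
  refine ⟨LinearMap.range L, ?_, ?_, ?_⟩
  · rintro g ⟨t, rfl⟩
    rw [hL]
    exact Tg_sum _ _ fun i _ => Tg_smul (hf i) _
  · rw [LinearMap.finrank_range_of_inj hinj, Module.finrank_fin_fun]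
  · rintro g ⟨t, rfl⟩
    obtain ⟨h3, h4⟩ := h2 t
    rw [hL]
    have h5 : Real.exp (2 * σ * a) * Y23.N2 (fun x => ∑ i, t i * f i x) ≤ Real.exp (2 * σ * a) * ∑ i, ‖t i‖ ^ 2 :=
      mul_le_mul_of_nonneg_left h4 (Real.exp_pos _).le
    linarith

/-- the `k`-th largest real part of the zeros (at least `1/2`) -/
noncomputable def beta (k : ℕ) : ℝ := sInf {x : ℝ | 1 / 2 ≤ x ∧ {s : ℂ | s ∈ D.Zs ∧ x < s.re}.encard < k}

lemma beta_mem {k : ℕ} (hk : 1 ≤ k) : (3 / 2 : ℝ) ∈ {x : ℝ | 1 / 2 ≤ x ∧ {s : ℂ | s ∈ D.Zs ∧ x < s.re}.encard < k} := by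
  refine ⟨by norm_num, ?_⟩
  have : {s : ℂ | s ∈ D.Zs ∧ (3 / 2 : ℝ) < s.re} = ∅ := by
    rw [Set.eq_empty_iff_forall_notMem]
    rintro s ⟨h1, h2⟩
    have := (abs_le.1 (D.strip s h1)).2
    linarith
  rw [this, Set.encard_empty]
  exact_mod_cast hk

lemma beta_bdd (k : ℕ) : BddBelow {x : ℝ | 1 / 2 ≤ x ∧ {s : ℂ | s ∈ D.Zs ∧ x < s.re}.encard < k} := ⟨1 / 2, fun _ h => h.1⟩

lemma beta_ge {k : ℕ} (hk : 1 ≤ k) : 1 / 2 ≤ beta (D := D) k := le_csInf ⟨_, beta_mem hk⟩ fun _ h => h.1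

lemma beta_le {k : ℕ} (hk : 1 ≤ k) : beta (D := D) k ≤ 3 / 2 := csInf_le (beta_bdd k) (beta_mem hk)

/-- below `beta` there are at least `k` zeros to the right -/
lemma beta_card {k : ℕ} {x : ℝ} (h1 : 1 / 2 ≤ x) (h2 : x < beta (D := D) k) : (k : ℕ∞) ≤ {s : ℂ | s ∈ D.Zs ∧ x < s.re}.encard := by
  by_contra hcon
  push Not at hcon
  exact absurd (csInf_le (beta_bdd k) ⟨h1, hcon⟩) (not_le.2 h2)

/-- above `beta` there are fewer -/
lemma beta_card' {k : ℕ} (hk : 1 ≤ k) {x : ℝ} (h2 : beta (D := D) k < x) : {s : ℂ | s ∈ D.Zs ∧ x < s.re}.encard < k := by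
  obtain ⟨y, hy, hyx⟩ := exists_lt_of_csInf_lt ⟨_, beta_mem hk⟩ h2
  refine lt_of_le_of_lt (Set.encard_le_encard ?_) hy.2
  rintro s ⟨h3, h4⟩
  exact ⟨h3, by linarith⟩

/-- **the growth exponents of the eigenvalues** -/
theorem rate (hT : S_Test) (hUp : S_UpQ) (n : ℝ → ℕ) (hn : Tendsto (fun a : ℝ => (n a : ℝ) / a) atTop atTop)
    (hn2 : ∀ ε : ℝ, 0 < ε → ∀ᶠ a : ℝ in atTop, Real.log (n a) ≤ Real.exp (ε * a)) {k : ℕ} (hk : 1 ≤ k)
    (lam : ℝ → ℝ) (hlam : ∀ᶠ a : ℝ in atTop, lam a = sInf (evs Y23.G.QQ Y23.N2 (Tg a (n a)) k)) :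
    Tendsto (fun a : ℝ => Real.log (max 1 (-lam a)) / a) atTop (𝓝 (2 * beta (D := D) k - 1)) := by
  obtain ⟨C, hC, hlow⟩ := evs_low (D := D) hUp
  have hb1 := beta_ge (D := D) hk
  have hb2 := beta_le (D := D) hk
  have hna : ∀ᶠ a : ℝ in atTop, a ≤ (n a : ℝ) := by
    filter_upwards [hn.eventually_ge_atTop 1, eventually_gt_atTop 0] with a h1 h2
    rwa [le_div_iff₀ h2, one_mul] at h1
  refine tendsto_order.2 ⟨fun b hb => ?_, fun b hb => ?_⟩
  · -- from below
    by_cases hb0 : b < 0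
    · filter_upwards [eventually_gt_atTop 0] with a ha
      refine lt_of_lt_of_le hb0 ?_
      exact div_nonneg (Real.log_nonneg (le_max_left _ _)) ha.le
    · push Not at hb0
      set σ : ℝ := (b / 2 + (beta (D := D) k - 1 / 2)) / 2 with hσ
      have h1 : b / 2 < σ := by rw [hσ]; linarith
      have h2 : σ < beta (D := D) k - 1 / 2 := by rw [hσ]; linarith
      have h3 : 0 ≤ σ := by linarith
      have hE : (k : ℕ∞) ≤ {s : ℂ | s ∈ D.Zs ∧ σ < s.re - 1 / 2}.encard := by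
        have h4 := beta_card (D := D) (k := k) (x := σ + 1 / 2) (by linarith) (by linarith)
        refine h4.trans (Set.encard_le_encard ?_)
        rintro s ⟨h5, h6⟩
        exact ⟨h5, by linarith⟩
      filter_upwards [evs_test hT n hn k σ h3 hE, hlam, eventually_ge_atTop 1, hna] with a ha hla ha1 han
      have ha0 : 0 < a := by linarith
      have hbb : BddBelow (evs Y23.G.QQ Y23.N2 (Tg a (n a)) k) := by
        refine ⟨_, fun x hx => hlow a 1 (n a) k ha1 zero_le_one le_rfl han ?_ x hx⟩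
        have : {s : ℂ | s ∈ D.Zs ∧ (1 : ℝ) < s.re - 1 / 2} = ∅ := by
          rw [Set.eq_empty_iff_forall_notMem]
          rintro s ⟨h1, h2⟩
          have := (abs_le.1 (D.strip s h1)).2
          linarith
        rw [this, Set.encard_empty]
        exact_mod_cast hk
      have h5 : lam a ≤ -Real.exp (2 * σ * a) := by
        rw [hla]
        exact csInf_le hbb ha
      have h6 : 2 * σ * a ≤ Real.log (max 1 (-lam a)) := by
        rw [Real.le_log_iff_exp_le (lt_of_lt_of_le one_pos (le_max_left _ _))]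
        exact le_max_of_le_right (by linarith)
      rw [lt_div_iff₀ ha0]
      nlinarith
  · -- from above
    set y : ℝ := (b / 2 + (beta (D := D) k - 1 / 2)) / 2 with hy
    have h1 : y < b / 2 := by rw [hy]; linarith
    have h2 : beta (D := D) k - 1 / 2 < y := by rw [hy]; linarith
    set z : ℝ := min y 1 with hz
    have hz0 : 0 ≤ z := le_min (by linarith) zero_le_one
    have hz1 : z ≤ 1 := min_le_right _ _
    have hzy : z ≤ y := min_le_left _ _
    have hE : {s : ℂ | s ∈ D.Zs ∧ z < s.re - 1 / 2}.encard < k := by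
      rcases min_choice y 1 with h | h
      · rw [hz, h]
        refine lt_of_le_of_lt (Set.encard_le_encard ?_) (beta_card' (D := D) hk (x := y + 1 / 2) (by linarith))
        rintro s ⟨h5, h6⟩
        exact ⟨h5, by linarith⟩
      · rw [hz, h]
        have : {s : ℂ | s ∈ D.Zs ∧ (1 : ℝ) < s.re - 1 / 2} = ∅ := by
          rw [Set.eq_empty_iff_forall_notMem]
          rintro s ⟨h1, h2⟩
          have := (abs_le.1 (D.strip s h1)).2
          linarith
        rw [this, Set.encard_empty]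
        exact_mod_cast hk
    set ε : ℝ := (b - 2 * z) / 12 with hε
    have hε0 : 0 < ε := by rw [hε]; linarith
    -- the constant is negligible
    have hconst : ∀ᶠ a : ℝ in atTop, C * a ^ 3 * Real.log ((n a : ℝ) + 2) ^ 2 ≤ Real.exp (6 * ε * a) := by
      have e1 : ∀ᶠ a : ℝ in atTop, C ≤ Real.exp (ε * a) :=
        (Real.tendsto_exp_atTop.comp (tendsto_id.const_mul_atTop hε0)).eventually_ge_atTop C
      have e2 : ∀ᶠ a : ℝ in atTop, a ^ 3 ≤ Real.exp (ε * a) := by
        have h3 : Tendsto (fun a : ℝ => a ^ (3 : ℝ) * Real.exp (-ε * a)) atTop (𝓝 0) :=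
          tendsto_rpow_mul_exp_neg_mul_atTop_nhds_zero 3 ε hε0
        filter_upwards [h3.eventually_lt_const one_pos] with a ha
        have h4 : a ^ (3 : ℝ) = a ^ 3 := by exact_mod_cast Real.rpow_natCast a 3
        rw [h4, neg_mul, Real.exp_neg, ← div_eq_mul_inv, div_lt_one (Real.exp_pos _)] at ha
        exact ha.le
      have e3 : ∀ᶠ a : ℝ in atTop, (3 : ℝ) ≤ Real.exp (ε * a) :=
        (Real.tendsto_exp_atTop.comp (tendsto_id.const_mul_atTop hε0)).eventually_ge_atTop 3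
      filter_upwards [e1, e2, e3, hn2 ε hε0, hna, eventually_ge_atTop 1] with a h3 h4 h5 h6 h7 h8
      have hn1 : (1 : ℝ) ≤ n a := by linarith
      have hlog : Real.log ((n a : ℝ) + 2) ≤ Real.exp (ε * a) * Real.exp (ε * a) := by
        have h9 : Real.log ((n a : ℝ) + 2) ≤ Real.log (3 * n a) := Real.log_le_log (by positivity) (by linarith)
        rw [Real.log_mul (by norm_num) (by positivity)] at h9
        have h10 : Real.log 3 ≤ 2 := by
          have := Real.log_le_sub_one_of_pos (show (0 : ℝ) < 3 by norm_num)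
          linarith
        have h11 : 0 < Real.exp (ε * a) := Real.exp_pos _
        nlinarith
      have hlog0 : 0 ≤ Real.log ((n a : ℝ) + 2) := Real.log_nonneg (by linarith)
      have hE0 : 0 < Real.exp (ε * a) := Real.exp_pos _
      have h9 : Real.log ((n a : ℝ) + 2) ^ 2 ≤ (Real.exp (ε * a) * Real.exp (ε * a)) ^ 2 := pow_le_pow_left₀ hlog0 hlog 2
      have h10 : C * a ^ 3 ≤ Real.exp (ε * a) * Real.exp (ε * a) := mul_le_mul h3 h4 (by positivity) hE0.le
      have h11 : C * a ^ 3 * Real.log ((n a : ℝ) + 2) ^ 2 ≤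
          (Real.exp (ε * a) * Real.exp (ε * a)) * (Real.exp (ε * a) * Real.exp (ε * a)) ^ 2 :=
        mul_le_mul h10 h9 (by positivity) (by positivity)
      refine h11.trans (le_of_eq ?_)
      rw [← Real.exp_add, ← Real.exp_nat_mul, ← Real.exp_add]
      congr 1
      push_cast
      ring
    filter_upwards [hconst, hlam, eventually_ge_atTop 1, hna] with a hca hla ha1 han
    have ha0 : 0 < a := by linarith
    have h5 : -Real.exp (6 * ε * a + 2 * z * a) ≤ lam a := by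
      rw [hla]
      rcases (evs Y23.G.QQ Y23.N2 (Tg a (n a)) k).eq_empty_or_nonempty with h | h
      · rw [h, Real.sInf_empty]
        have := Real.exp_pos (6 * ε * a + 2 * z * a)
        linarith
      · refine le_csInf h fun x hx => ?_
        refine le_trans ?_ (hlow a z (n a) k ha1 hz0 hz1 han hE x hx)
        rw [neg_le_neg_iff, Real.exp_add]
        exact mul_le_mul_of_nonneg_right hca (Real.exp_pos _).le
    have h6 : Real.log (max 1 (-lam a)) ≤ 6 * ε * a + 2 * z * a := by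
      rw [Real.log_le_iff_le_exp (lt_of_lt_of_le one_pos (le_max_left _ _))]
      refine max_le (Real.one_le_exp ?_) (by linarith)
      have : 0 ≤ ε * a := by positivity
      have : 0 ≤ z * a := by positivity
      nlinarith
    rw [div_lt_iff₀ ha0]
    have h7 : 6 * ε + 2 * z < b := by rw [hε]; linarith
    nlinarith

/-- the number of negative eigenvalues -/
theorem negative (hT : S_Test) (hUp : S_UpQ) (n : ℝ → ℕ) (hn : Tendsto (fun a : ℝ => (n a : ℝ) / a) atTop atTop) {k : ℕ} (hk : 1 ≤ k)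
    (lam : ℝ → ℝ) (hlam : ∀ᶠ a : ℝ in atTop, lam a = sInf (evs Y23.G.QQ Y23.N2 (Tg a (n a)) k)) :
    ((k : ℕ∞) ≤ {s : ℂ | s ∈ D.Zs ∧ 1 / 2 < s.re}.encard → ∀ᶠ a : ℝ in atTop, lam a < 0) ∧
    ({s : ℂ | s ∈ D.Zs ∧ 1 / 2 < s.re}.encard < k → ∀ᶠ a : ℝ in atTop, 0 ≤ lam a) := by
  obtain ⟨C, hC, hlow⟩ := evs_low (D := D) hUp
  have hna : ∀ᶠ a : ℝ in atTop, a ≤ (n a : ℝ) := by
    filter_upwards [hn.eventually_ge_atTop 1, eventually_gt_atTop 0] with a h1 h2
    rwa [le_div_iff₀ h2, one_mul] at h1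
  constructor
  · intro hE
    have hE' : (k : ℕ∞) ≤ {s : ℂ | s ∈ D.Zs ∧ (0 : ℝ) < s.re - 1 / 2}.encard := by
      refine hE.trans (Set.encard_le_encard ?_)
      rintro s ⟨h5, h6⟩
      exact ⟨h5, by linarith⟩
    filter_upwards [evs_test hT n hn k 0 le_rfl hE', hlam, eventually_ge_atTop 1, hna] with a ha hla ha1 han
    have hbb : BddBelow (evs Y23.G.QQ Y23.N2 (Tg a (n a)) k) := by
      refine ⟨_, fun x hx => hlow a 1 (n a) k ha1 zero_le_one le_rfl han ?_ x hx⟩
      have : {s : ℂ | s ∈ D.Zs ∧ (1 : ℝ) < s.re - 1 / 2} = ∅ := by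
        rw [Set.eq_empty_iff_forall_notMem]
        rintro s ⟨h1, h2⟩
        have := (abs_le.1 (D.strip s h1)).2
        linarith
      rw [this, Set.encard_empty]
      exact_mod_cast hk
    have h5 : lam a ≤ -Real.exp (2 * 0 * a) := by
      rw [hla]
      exact csInf_le hbb ha
    have := Real.exp_pos (2 * 0 * a)
    linarith
  · intro hE
    filter_upwards [hlam, eventually_gt_atTop 0] with a hla ha0
    rw [hla]
    rcases (evs Y23.G.QQ Y23.N2 (Tg a (n a)) k).eq_empty_or_nonempty with h | h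
    · rw [h, Real.sInf_empty]
    · exact le_csInf h fun x hx => evs_nonneg ha0 hE x hx

end

end Pool.Agent.Q240.CE
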